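import Pool.Agent.Helper50.BC.Goals

/-! Packet EMP of project BC (helper50, MP_eec6f5_gt). -/

set_option autoImplicit false

open scoped ContDiff
open Pool.Agent.Helper50.BC

namespace Pool.Agent.Helper30.BC

/-- concatenation of two vectors -/
noncomputable def Jl (q j : ℕ) : (E j × E q) →ₗ[ℝ] E (q + j) where
  toFun p := WithLp.toLp 2 (Fin.append (fun i => p.2 i) (fun i => p.1 i))
  map_add' p r := by
    ext i
    refine Fin.addCases (fun i => ?_) (fun i => ?_) i <;> simp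
  map_smul' c p := by
    ext i
    refine Fin.addCases (fun i => ?_) (fun i => ?_) i <;> simp

/-- concatenation, continuous -/
noncomputable def J (q j : ℕ) : (E j × E q) →L[ℝ] E (q + j) :=
  LinearMap.toContinuousLinearMap (Jl q j)

lemma J_norm (q j : ℕ) (a : E j) (b : E q) : ‖J q j (a, b)‖ ^ 2 = ‖a‖ ^ 2 + ‖b‖ ^ 2 := by
  rw [EuclideanSpace.norm_sq_eq, EuclideanSpace.norm_sq_eq, EuclideanSpace.norm_sq_eq,
    Fin.sum_univ_add, add_comm]
  congr 1
  · refine Finset.sum_congr rfl fun i _ => ?_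
    simp [J, Jl]
  · refine Finset.sum_congr rfl fun i _ => ?_
    simp [J, Jl]

lemma J_le (q j : ℕ) (a : E j) (b : E q) : ‖J q j (a, b)‖ ≤ ‖a‖ + ‖b‖ := by
  have h := J_norm q j a b
  have ha := norm_nonneg a
  have hb := norm_nonneg b
  refine abs_le_of_sq_le_sq' ?_ (by positivity) |>.2
  nlinarith [mul_nonneg ha hb]

/-- the transpose, as a bilinear map -/
noncomputable def Bl (q j : ℕ) : (E q →L[ℝ] E j) →ₗ[ℝ] E j →ₗ[ℝ] E q :=
  LinearMap.mk₂ ℝ (fun L z => ∑ i, (inner ℝ z (L (EuclideanSpace.single i 1))) •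
      (EuclideanSpace.single i (1 : ℝ) : E q))
    (fun L L' z => by
      simp only [_root_.add_apply, inner_add_right, add_smul, Finset.sum_add_distrib])
    (fun c L z => by
      simp only [_root_.smul_apply, inner_smul_right, Finset.smul_sum, smul_smul])
    (fun L z z' => by
      simp only [inner_add_left, add_smul, Finset.sum_add_distrib])
    (fun c L z => by
      simp only [real_inner_smul_left, Finset.smul_sum, smul_smul])

/-- the transpose, as a continuous bilinear map -/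
noncomputable def B (q j : ℕ) : (E q →L[ℝ] E j) →L[ℝ] E j →L[ℝ] E q :=
  (Bl q j).toContinuousBilinearMap

lemma B_inner (q j : ℕ) (L : E q →L[ℝ] E j) (z : E j) (u : E q) :
    inner ℝ (B q j L z) u = inner ℝ z (L u) := by
  have hu : u = ∑ i, u i • (EuclideanSpace.single i (1 : ℝ) : E q) := by
    ext k
    simp [Finset.sum_apply, Pi.single_apply]
  have h1 : B q j L z = ∑ i, (inner ℝ z (L (EuclideanSpace.single i 1))) •
      (EuclideanSpace.single i (1 : ℝ) : E q) := rfl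
  rw [h1, sum_inner]
  conv_rhs => rw [hu, map_sum, inner_sum]
  refine Finset.sum_congr rfl fun i _ => ?_
  rw [real_inner_smul_left, map_smul, inner_smul_right, EuclideanSpace.inner_single_left]
  simp [mul_comm]

lemma B_le (q j : ℕ) (L : E q →L[ℝ] E j) (z : E j) (c : ℝ) (hc : 0 ≤ c)
    (hL : ∀ u, ‖L u‖ ≤ c * ‖u‖) : ‖B q j L z‖ ≤ c * ‖z‖ := by
  set w := B q j L z with hw
  have h1 : ‖w‖ ^ 2 = inner ℝ z (L w) := by
    rw [← real_inner_self_eq_norm_sq]
    exact B_inner q j L z w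
  have h2 : ‖w‖ ^ 2 ≤ ‖z‖ * (c * ‖w‖) := by
    rw [h1]
    exact (real_inner_le_norm z (L w)).trans (mul_le_mul_of_nonneg_left (hL w) (norm_nonneg _))
  rcases eq_or_lt_of_le (norm_nonneg w) with h | h
  · rw [← h]; positivity
  · nlinarith [norm_nonneg z]

/-- derivative of a rescaled map -/
lemma hder {q : ℕ} {V : Type} [NormedAddCommGroup V] [NormedSpace ℝ V] (G : E q → V)
    (hG : ContDiff ℝ ∞ G) (c : ℝ) (y : E q) :
    HasFDerivAt (fun y => c • G ((3 / 2 : ℝ) • y))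
      ((c * (3 / 2)) • fderiv ℝ G ((3 / 2 : ℝ) • y)) y := by
  have h0 : HasFDerivAt G (fderiv ℝ G ((3 / 2 : ℝ) • y)) ((3 / 2 : ℝ) • y) :=
    (hG.differentiable (by simp) _).hasFDerivAt
  have h1 : HasFDerivAt (fun y : E q => (3 / 2 : ℝ) • y)
      ((3 / 2 : ℝ) • ContinuousLinearMap.id ℝ (E q)) y := (hasFDerivAt_id y).const_smul (3 / 2 : ℝ)
  have h2 : HasFDerivAt (fun y => c • G ((3 / 2 : ℝ) • y))
      (c • (fderiv ℝ G ((3 / 2 : ℝ) • y)).comp ((3 / 2 : ℝ) • ContinuousLinearMap.id ℝ (E q))) y :=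
    (h0.comp y h1).const_smul c
  refine h2.congr_fderiv ?_
  ext v
  simp [mul_smul]

theorem goalEMP (hI : G_EIN) : G_EMP := by
  intro q j F hF
  obtain ⟨hFs, hF0, hF1l, hF1u, hF2, hF3⟩ := hF
  have hFs1 : ContDiff ℝ ∞ (fderiv ℝ F) := hFs.fderiv_right (m := ∞) (by simp)
  have hFs2 : ContDiff ℝ ∞ (fderiv ℝ (fderiv ℝ F)) := hFs1.fderiv_right (m := ∞) (by simp)
  -- the rescaled map and its derivatives
  set H : E q → E j := fun y => F ((3 / 2 : ℝ) • y) with hHdef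
  set D1 : E q → (E q →L[ℝ] E j) := fun y => (3 / 2 : ℝ) • fderiv ℝ F ((3 / 2 : ℝ) • y) with hD1def
  set D2 : E q → (E q →L[ℝ] E q →L[ℝ] E j) :=
    fun y => (9 / 4 : ℝ) • fderiv ℝ (fderiv ℝ F) ((3 / 2 : ℝ) • y) with hD2def
  set D3 : E q → (E q →L[ℝ] E q →L[ℝ] E q →L[ℝ] E j) :=
    fun y => (27 / 8 : ℝ) • fderiv ℝ (fderiv ℝ (fderiv ℝ F)) ((3 / 2 : ℝ) • y) with hD3def
  have hd0 : ∀ y, HasFDerivAt H (D1 y) y := by
    intro y
    have h := hder F hFs 1 y
    simp only [one_smul, one_mul] at h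
    exact h
  have hd1 : ∀ y, HasFDerivAt D1 (D2 y) y := by
    intro y
    have h := hder (fderiv ℝ F) hFs1 (3 / 2) y
    have e : (3 / 2 * (3 / 2) : ℝ) = 9 / 4 := by norm_num
    rw [e] at h
    exact h
  have hd2 : ∀ y, HasFDerivAt D2 (D3 y) y := by
    intro y
    have h := hder (fderiv ℝ (fderiv ℝ F)) hFs2 (9 / 4) y
    have e : (9 / 4 * (3 / 2) : ℝ) = 27 / 8 := by norm_num
    rw [e] at h
    exact h
  have hsm : ContDiff ℝ ∞ (fun y : E q => (3 / 2 : ℝ) • y) := by fun_prop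
  have hHs : ContDiff ℝ ∞ H := hFs.comp hsm
  have hD1s : ContDiff ℝ ∞ D1 := by
    have h1 : ContDiff ℝ ∞ (fun y => fderiv ℝ F ((3 / 2 : ℝ) • y)) := hFs1.comp hsm
    exact h1.const_smul (3 / 2 : ℝ)
  -- the map
  set Ψ : E q × E j → E (q + j) := fun p =>
    J q j (H p.1 + p.2, (4 / 3 : ℝ) • B q j (D1 p.1) p.2) with hΨdef
  have hΨs : ContDiff ℝ ∞ Ψ := by
    have h1 : ContDiff ℝ ∞ (fun p : E q × E j => B q j (D1 p.1) p.2) :=
      ((B q j).contDiff.comp (hD1s.comp contDiff_fst)).clm_apply contDiff_snd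
    have h2 : ContDiff ℝ ∞ (fun p : E q × E j => (4 / 3 : ℝ) • B q j (D1 p.1) p.2) :=
      h1.const_smul (4 / 3 : ℝ)
    have h3 : ContDiff ℝ ∞ (fun p : E q × E j => H p.1 + p.2) :=
      (hHs.comp contDiff_fst).add contDiff_snd
    exact (J q j).contDiff.comp (h3.prodMk h2)
  -- bounds
  have b1l : ∀ y u, 297 / 200 * ‖u‖ ≤ ‖D1 y u‖ := by
    intro y u
    have h := hF1l ((3 / 2 : ℝ) • y) u
    have e : ‖D1 y u‖ = 3 / 2 * ‖fderiv ℝ F ((3 / 2 : ℝ) • y) u‖ := by
      simp [hD1def, norm_smul]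
    rw [e]; linarith
  have b1u : ∀ y u, ‖D1 y u‖ ≤ 303 / 200 * ‖u‖ := by
    intro y u
    have h := hF1u ((3 / 2 : ℝ) • y) u
    have e : ‖D1 y u‖ = 3 / 2 * ‖fderiv ℝ F ((3 / 2 : ℝ) • y) u‖ := by
      simp [hD1def, norm_smul]
    rw [e]; linarith
  have b2 : ∀ y u v, ‖D2 y u v‖ ≤ 63 / 16 * (‖u‖ * ‖v‖) := by
    intro y u v
    have h := hF2 ((3 / 2 : ℝ) • y) u v
    have e : ‖D2 y u v‖ = 9 / 4 * ‖fderiv ℝ (fderiv ℝ F) ((3 / 2 : ℝ) • y) u v‖ := by
      simp [hD2def, norm_smul]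
    rw [e]; linarith
  have b3 : ∀ y u v w, ‖D3 y u v w‖ ≤ 1323 / 100 * (‖u‖ * ‖v‖ * ‖w‖) := by
    intro y u v w
    have h := hF3 ((3 / 2 : ℝ) • y) u v w
    have e : ‖D3 y u v w‖ =
        27 / 8 * ‖fderiv ℝ (fderiv ℝ (fderiv ℝ F)) ((3 / 2 : ℝ) • y) u v w‖ := by
      simp [hD3def, norm_smul]
    rw [e]; linarith
  -- first derivative
  have hdB : ∀ (p : E q × E j), HasFDerivAt (fun p : E q × E j => B q j (D1 p.1) p.2)
      ((B q j).precompR (E q × E j) (D1 p.1) (ContinuousLinearMap.snd ℝ (E q) (E j)) +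
        (B q j).precompL (E q × E j) ((D2 p.1).comp (ContinuousLinearMap.fst ℝ (E q) (E j))) p.2)
      p := by
    intro p
    exact (B q j).hasFDerivAt_of_bilinear ((hd1 p.1).comp p hasFDerivAt_fst) hasFDerivAt_snd
  have hdΨ : ∀ (p ξ : E q × E j), fderiv ℝ Ψ p ξ =
      J q j (D1 p.1 ξ.1 + ξ.2,
        (4 / 3 : ℝ) • (B q j (D1 p.1) ξ.2 + B q j (D2 p.1 ξ.1) p.2)) := by
    intro p ξ
    have h1 : HasFDerivAt (fun p : E q × E j => H p.1 + p.2)
        ((D1 p.1).comp (ContinuousLinearMap.fst ℝ (E q) (E j)) +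
          ContinuousLinearMap.snd ℝ (E q) (E j)) p :=
      ((hd0 p.1).comp p hasFDerivAt_fst).add hasFDerivAt_snd
    have h2 := (hdB p).const_smul (4 / 3 : ℝ)
    have h3 := (J q j).hasFDerivAt.comp p (h1.prodMk h2)
    have h4 : HasFDerivAt Ψ _ p := h3
    rw [h4.fderiv]
    simp
  refine ⟨Ψ, hΨs, ?_⟩
  rintro ⟨y, z⟩ hz
  simp only at hz
  refine ⟨?_, ?_, ?_, ?_⟩
  · -- size
    have h1 : ‖H y + z‖ ≤ 111 / 100 := by
      have := norm_add_le (H y) z
      have h2 : ‖H y‖ ≤ 101 / 100 := hF0 _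
      linarith
    have h2 : ‖B q j (D1 y) z‖ ≤ 303 / 2000 := by
      have := B_le q j (D1 y) z (303 / 200) (by norm_num) (b1u y)
      nlinarith
    have h3 : ‖Ψ (y, z)‖ ^ 2 = ‖H y + z‖ ^ 2 + ‖(4 / 3 : ℝ) • B q j (D1 y) z‖ ^ 2 :=
      J_norm q j _ _
    rw [norm_smul, Real.norm_of_nonneg (by norm_num : (0 : ℝ) ≤ 4 / 3)] at h3
    refine abs_le_of_sq_le_sq' ?_ (by norm_num) |>.2
    rw [h3]
    have h4 : ‖H y + z‖ ^ 2 ≤ (111 / 100) ^ 2 := by
      have := norm_nonneg (H y + z)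
      gcongr
    have h5 : (4 / 3 * ‖B q j (D1 y) z‖) ^ 2 ≤ (4 / 3 * (303 / 2000)) ^ 2 := by
      have := norm_nonneg (B q j (D1 y) z)
      gcongr
    norm_num at h4 h5 ⊢
    linarith
  · rintro ⟨v, ζ⟩
    have h := (hI q j (D1 y) (D2 y v) v (B q j (D1 y) ζ) (B q j (D2 y v) z) z ζ (b1l y) (b1u y)
      (fun u => by
        have := b2 y v u
        exact this) hz (fun u => B_inner q j _ _ _) (fun u => B_inner q j _ _ _)).1
    rw [hdΨ, J_norm, norm_smul, Real.norm_of_nonneg (by norm_num : (0 : ℝ) ≤ 4 / 3)]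
    simp only
    rw [mul_pow]
    norm_num at h ⊢
    linarith
  · rintro ⟨v, ζ⟩
    have h := (hI q j (D1 y) (D2 y v) v (B q j (D1 y) ζ) (B q j (D2 y v) z) z ζ (b1l y) (b1u y)
      (fun u => by
        have := b2 y v u
        exact this) hz (fun u => B_inner q j _ _ _) (fun u => B_inner q j _ _ _)).2
    rw [hdΨ, J_norm, norm_smul, Real.norm_of_nonneg (by norm_num : (0 : ℝ) ≤ 4 / 3)]
    simp only
    rw [mul_pow]
    norm_num at h ⊢
    linarith
  · -- second derivative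
    rintro ⟨v, ζ⟩
    have hs2 : fderiv ℝ (fderiv ℝ Ψ) (y, z) (v, ζ) (v, ζ) =
        J q j (D2 y v v, (4 / 3 : ℝ) •
          (B q j (D2 y v) ζ + (B q j (D3 y v v) z + B q j (D2 y v) ζ))) := by
      have hdd : DifferentiableAt ℝ (fderiv ℝ Ψ) (y, z) :=
        (hΨs.fderiv_right (m := ∞) (by simp)).differentiable (by simp) _
      have h0 : fderiv ℝ (fun p => fderiv ℝ Ψ p (v, ζ)) (y, z) (v, ζ) =
          fderiv ℝ (fderiv ℝ Ψ) (y, z) (v, ζ) (v, ζ) := by
        rw [fderiv_clm_apply hdd (differentiableAt_const _)]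
        simp
      rw [← h0]
      have e : (fun p => fderiv ℝ Ψ p (v, ζ)) = fun p : E q × E j =>
          J q j (D1 p.1 v + ζ, (4 / 3 : ℝ) • (B q j (D1 p.1) ζ + B q j (D2 p.1 v) p.2)) := by
        funext p
        exact hdΨ p (v, ζ)
      rw [e]
      have kk1 : ∀ p : E q × E j, HasFDerivAt (fun p : E q × E j => D1 p.1)
          ((D2 p.1).comp (ContinuousLinearMap.fst ℝ (E q) (E j))) p :=
        fun p => (hd1 p.1).comp p hasFDerivAt_fst
      have kk2 : ∀ p : E q × E j, HasFDerivAt (fun p : E q × E j => D2 p.1)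
          ((D3 p.1).comp (ContinuousLinearMap.fst ℝ (E q) (E j))) p :=
        fun p => by
          have h1 : HasFDerivAt (fun p : E q × E j => p.1)
              (ContinuousLinearMap.fst ℝ (E q) (E j)) p := hasFDerivAt_fst
          have h2 := HasFDerivAt.comp (g := D2) (f := fun p : E q × E j => p.1) p (hd2 p.1) h1
          exact h2
      have g1 : HasFDerivAt (fun p : E q × E j => D1 p.1 v + ζ)
          (((D2 y).comp (ContinuousLinearMap.fst ℝ (E q) (E j))).flip v) (y, z) := by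
        have k1 : HasFDerivAt (fun p : E q × E j => D1 p.1)
            ((D2 y).comp (ContinuousLinearMap.fst ℝ (E q) (E j))) (y, z) := kk1 (y, z)
        have k2 := (k1.clm_apply (hasFDerivAt_const v (y, z))).add_const ζ
        exact k2.congr_fderiv (by simp)
      have g2 : HasFDerivAt (fun p : E q × E j => B q j (D1 p.1) ζ)
          ((((B q j).comp ((D2 y).comp (ContinuousLinearMap.fst ℝ (E q) (E j))))).flip ζ)
          (y, z) := by
        have k1 : HasFDerivAt (fun p : E q × E j => D1 p.1)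
            ((D2 y).comp (ContinuousLinearMap.fst ℝ (E q) (E j))) (y, z) := kk1 (y, z)
        have k1' := (B q j).hasFDerivAt.comp (y, z) k1
        have k2 := k1'.clm_apply (hasFDerivAt_const ζ (y, z))
        exact k2.congr_fderiv (by simp)
      have g3 : HasFDerivAt (fun p : E q × E j => D2 p.1 v)
          (((D3 y).comp (ContinuousLinearMap.fst ℝ (E q) (E j))).flip v) (y, z) := by
        have k1 : HasFDerivAt (fun p : E q × E j => D2 p.1)
            ((D3 y).comp (ContinuousLinearMap.fst ℝ (E q) (E j))) (y, z) := kk2 (y, z)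
        have k2 := k1.clm_apply (hasFDerivAt_const v (y, z))
        exact k2.congr_fderiv (by simp)
      have g4 := (B q j).hasFDerivAt_of_bilinear g3 (hasFDerivAt_snd (p := (y, z)))
      have g5 := ((g2.add g4).const_smul (4 / 3 : ℝ))
      have g6 := (J q j).hasFDerivAt.comp (y, z) (g1.prodMk g5)
      have g7 : HasFDerivAt (fun p : E q × E j =>
          J q j (D1 p.1 v + ζ, (4 / 3 : ℝ) • (B q j (D1 p.1) ζ + B q j (D2 p.1 v) p.2))) _
          (y, z) := g6
      rw [g7.fderiv]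
      simp
      abel_nf
    rw [hs2]
    have c1 := J_le q j (D2 y v v) ((4 / 3 : ℝ) •
          (B q j (D2 y v) ζ + (B q j (D3 y v v) z + B q j (D2 y v) ζ)))
    rw [norm_smul, Real.norm_of_nonneg (by norm_num : (0 : ℝ) ≤ 4 / 3)] at c1
    have c2 : ‖D2 y v v‖ ≤ 63 / 16 * (‖v‖ * ‖v‖) := b2 y v v
    have c3 : ‖B q j (D2 y v) ζ‖ ≤ (63 / 16 * ‖v‖) * ‖ζ‖ :=
      B_le q j _ _ _ (by positivity) (fun u => by
        have := b2 y v u
        rw [mul_assoc]; exact this)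
    have c4 : ‖B q j (D3 y v v) z‖ ≤ (1323 / 100 * (‖v‖ * ‖v‖)) * ‖z‖ :=
      B_le q j _ _ _ (by positivity) (fun u => by
        have := b3 y v v u
        rw [mul_assoc]; exact this)
    have c5 := norm_add_le (B q j (D2 y v) ζ) (B q j (D3 y v v) z + B q j (D2 y v) ζ)
    have c6 := norm_add_le (B q j (D3 y v v) z) (B q j (D2 y v) ζ)
    have c7 : (1323 / 100 * (‖v‖ * ‖v‖)) * ‖z‖ ≤ 1323 / 1000 * (‖v‖ * ‖v‖) := by
      have : 0 ≤ ‖v‖ * ‖v‖ := by positivity
      nlinarith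
    simp only
    nlinarith [sq_nonneg (‖v‖ * (105 / 20) - 3.2985 * ‖v‖), sq_nonneg (‖v‖ - 3 / 2 * ‖ζ‖),
      sq_nonneg (‖v‖ - 8 / 5 * ‖ζ‖), sq_nonneg ‖ζ‖, norm_nonneg v, norm_nonneg ζ]

end Pool.Agent.Helper30.BC
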